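import Pool.Agent.Results.MP_15d263_co.Aligned

/-!
# Every two-square tile `T(x,y)` has an idiomeric tiling

`MP_15d263_co`, Q1, asks for which integer pairs `(x, y)` the tile `T(x,y)`, the union of the unit
squares with centres `(0,0)` and `(x,y)`, admits an idiomeric tiling of the plane.  Here it is
shown that every pair does, when the squares of the tiling are not required to be those of the
regular tiling.  For `y ≠ 0` shift the `j`-th row of the regular tiling by `j (x - 1) / y`: the
centres of the squares form a lattice with basis `e = (1, 0)`, `f = ((x - 1) / y, 1)`, and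
`(x, y) = e + y f`, so the translates of `T(x,y)` by `2 i e + j f` tile the plane, and the half-turn
about the centre of a tile is a symmetry of the tiling.

The definitions (`T`, `IsTiling`, `Monohedral`, `Idiomeric`) are those of the file `Aligned`, where
the pairs with an idiomeric tiling by squares of the regular tiling are determined.
-/

set_option autoImplicit false

namespace Pool.Agent.Results.MP_15d263_co.AllPairs

open Pool.Agent.Results.MP_15d263_co.Aligned

/-- The reflection that exchanges the coordinates. -/
noncomputable def flip : Plane ≃ᵢ Plane :=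
  (LinearIsometryEquiv.piLpCongrLeft 2 ℝ ℝ (Equiv.swap (0 : Fin 2) 1)).toIsometryEquiv

theorem flip_zero (z : Plane) : flip z 0 = z 1 := by
  simp [flip, LinearIsometryEquiv.piLpCongrLeft_apply, Equiv.piCongrLeft']

theorem flip_one (z : Plane) : flip z 1 = z 0 := by
  simp [flip, LinearIsometryEquiv.piLpCongrLeft_apply, Equiv.piCongrLeft']

theorem flip_flip (z : Plane) : flip (flip z) = z := by
  apply ext2
  · rw [flip_zero, flip_one]
  · rw [flip_one, flip_zero]

theorem flip_sq (u v : ℝ) : flip '' sq (pt u v) = sq (pt v u) := by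
  ext z
  constructor
  · rintro ⟨w, ⟨h0, h1⟩, rfl⟩
    simp only [pt_zero, pt_one] at h0 h1
    refine ⟨?_, ?_⟩
    · rw [flip_zero, pt_zero]; exact h1
    · rw [flip_one, pt_one]; exact h0
  · rintro ⟨h0, h1⟩
    simp only [pt_zero, pt_one] at h0 h1
    refine ⟨flip z, ⟨?_, ?_⟩, flip_flip z⟩
    · rw [flip_zero, pt_zero]; exact h1
    · rw [flip_one, pt_one]; exact h0

theorem flip_T (x y : ℤ) : flip '' T x y = T y x := by
  rw [T, Set.image_union, flip_sq, flip_sq, T]

theorem exists_of_ne (x y : ℤ) (hxy : 2 ≤ max |x| |y|) (hy : y ≠ 0) :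
    ∃ F : Set (Set Plane), IsTiling F ∧ Monohedral F (T x y) ∧ Idiomeric F := by
  have hy' : (y : ℝ) ≠ 0 := by exact_mod_cast hy
  refine ⟨_, construction x y hxy (((x : ℝ) - 1) / y) 1 odd_one ?_⟩
  field_simp
  push_cast
  ring

/-- For all integers `x`, `y` with `max |x| |y| ≥ 2` the tile `T(x,y)` admits an idiomeric tiling
of the plane. -/
theorem result (x y : ℤ) (hxy : 2 ≤ max |x| |y|) :
    ∃ F : Set (Set Plane), IsTiling F ∧ Monohedral F (T x y) ∧ Idiomeric F := by
  by_cases hy : y = 0
  · have hx : x ≠ 0 := by
      rintro rfl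
      rw [hy] at hxy
      norm_num at hxy
    obtain ⟨F, h1, h2, h3⟩ := exists_of_ne y x (by rwa [max_comm]) hx
    refine ⟨F, h1, fun t ht => ?_, h3⟩
    obtain ⟨g, hg⟩ := h2 t ht
    refine ⟨flip.trans g, ?_⟩
    rw [← hg, ← flip_T x y, ← Set.image_comp]
    rfl
  · exact exists_of_ne x y hxy hy

end Pool.Agent.Results.MP_15d263_co.AllPairs
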